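import Mathlib

set_option autoImplicit false

namespace Pool.Agent.X261.ZD

open Polynomial Filter Topology

/-- growth of a polynomial -/
lemma poly_log (P : ℂ[X]) (hP : P ≠ 0) : ∃ C R : ℝ, 1 ≤ R ∧ 0 ≤ C ∧ ∀ z : ℂ, R ≤ ‖z‖ →
    P.eval z ≠ 0 ∧ |Real.log ‖P.eval z‖ - P.natDegree * Real.log ‖z‖| ≤ C := by
  obtain ⟨m, hm⟩ : ∃ m, m = P.natDegree := ⟨_, rfl⟩
  obtain ⟨a, ha⟩ : ∃ a : ℝ, a = ‖P.leadingCoeff‖ := ⟨_, rfl⟩
  have ha0 : 0 < a := by
    rw [ha]
    exact norm_pos_iff.2 (leadingCoeff_ne_zero.2 hP)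
  obtain ⟨S, hS⟩ : ∃ S : ℝ, S = ∑ k ∈ Finset.range m, ‖P.coeff k‖ := ⟨_, rfl⟩
  have hS0 : 0 ≤ S := by
    rw [hS]
    positivity
  refine ⟨|Real.log (a / 2)| + |Real.log (3 * a / 2)|, 1 + 2 * S / a, ?_, by positivity, ?_⟩
  · have : 0 ≤ 2 * S / a := by positivity
    linarith
  · intro z hz
    have h0 : 0 ≤ 2 * S / a := by positivity
    have hz1 : 1 ≤ ‖z‖ := by linarith
    have hz0 : 0 < ‖z‖ := by linarith
    have hSz : S ≤ a * ‖z‖ / 2 := by
      have h1 : 2 * S / a ≤ ‖z‖ := by linarith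
      rw [div_le_iff₀ ha0] at h1
      linarith
    have hev : P.eval z = (∑ k ∈ Finset.range m, P.coeff k * z ^ k) + P.leadingCoeff * z ^ m := by
      rw [eval_eq_sum_range, ← hm, Finset.sum_range_succ]
      rw [hm]
      rfl
    have hs : ‖∑ k ∈ Finset.range m, P.coeff k * z ^ k‖ ≤ a * ‖z‖ ^ m / 2 := by
      have h2 : ‖∑ k ∈ Finset.range m, P.coeff k * z ^ k‖ * ‖z‖ ≤ S * ‖z‖ ^ m := by
        rw [hS, Finset.sum_mul]
        refine (mul_le_mul_of_nonneg_right (norm_sum_le _ _) hz0.le).trans ?_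
        rw [Finset.sum_mul]
        refine Finset.sum_le_sum fun k hk => ?_
        rw [norm_mul, norm_pow, mul_assoc, ← pow_succ]
        exact mul_le_mul_of_nonneg_left
          (pow_le_pow_right₀ hz1 (Finset.mem_range.1 hk)) (norm_nonneg _)
      have h3 : S * ‖z‖ ^ m ≤ (a * ‖z‖ ^ m / 2) * ‖z‖ := by
        have := mul_le_mul_of_nonneg_right hSz (pow_nonneg hz0.le m)
        calc S * ‖z‖ ^ m ≤ a * ‖z‖ / 2 * ‖z‖ ^ m := this
          _ = (a * ‖z‖ ^ m / 2) * ‖z‖ := by ring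
      exact le_of_mul_le_mul_right (h2.trans h3) hz0
    have hlead : ‖P.leadingCoeff * z ^ m‖ = a * ‖z‖ ^ m := by
      rw [norm_mul, norm_pow, ha]
    have hpos : 0 < ‖z‖ ^ m := pow_pos hz0 m
    have hup : ‖P.eval z‖ ≤ 3 * a / 2 * ‖z‖ ^ m := by
      rw [hev]
      refine (norm_add_le _ _).trans ?_
      rw [hlead]
      linarith
    have hlo : a / 2 * ‖z‖ ^ m ≤ ‖P.eval z‖ := by
      have h4 : ‖P.leadingCoeff * z ^ m‖ ≤ ‖P.eval z‖ +
          ‖∑ k ∈ Finset.range m, P.coeff k * z ^ k‖ := by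
        have h5 : P.leadingCoeff * z ^ m = P.eval z - ∑ k ∈ Finset.range m, P.coeff k * z ^ k := by
          rw [hev]
          ring
        rw [h5]
        exact norm_sub_le _ _
      rw [hlead] at h4
      linarith
    have hlo0 : 0 < a / 2 * ‖z‖ ^ m := by positivity
    have hne : 0 < ‖P.eval z‖ := lt_of_lt_of_le hlo0 hlo
    refine ⟨norm_pos_iff.1 hne, ?_⟩
    rw [← hm]
    have l1 := Real.log_le_log hlo0 hlo
    have l2 := Real.log_le_log hne hup
    rw [Real.log_mul (by positivity) hpos.ne', Real.log_pow] at l1 l2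
    have n1 := neg_abs_le (Real.log (a / 2))
    have n2 := le_abs_self (Real.log (3 * a / 2))
    have n3 := abs_nonneg (Real.log (a / 2))
    have n4 := abs_nonneg (Real.log (3 * a / 2))
    rw [abs_le]
    constructor <;> linarith

/-- escape rate of a real sequence with `y_{n+1} = e y_n + O(1)` -/
lemma rate {e : ℕ} (he : 2 ≤ e) {C : ℝ} (hC : 0 ≤ C) (y : ℕ → ℝ)
    (h : ∀ n, |y (n + 1) - e * y n| ≤ C) (h0 : C < y 0) :
    ∃ G : ℝ, 0 < G ∧ Tendsto (fun n => y n / (e : ℝ) ^ n) atTop (𝓝 G) := by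
  have he' : (2 : ℝ) ≤ e := by exact_mod_cast he
  have he0 : (0 : ℝ) < e := by linarith
  have hu : ∀ n, dist (y n / (e : ℝ) ^ n) (y (n + 1) / (e : ℝ) ^ (n + 1)) ≤
      (C / 2) * (1 / 2 : ℝ) ^ n := by
    intro n
    have hp : (0 : ℝ) < (e : ℝ) ^ (n + 1) := by positivity
    have e1 : y n / (e : ℝ) ^ n - y (n + 1) / (e : ℝ) ^ (n + 1) =
        -(y (n + 1) - e * y n) / (e : ℝ) ^ (n + 1) := by
      field_simp
      ring
    rw [Real.dist_eq, e1, abs_div, abs_neg, abs_of_pos hp]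
    have h2 : (2 : ℝ) ^ (n + 1) ≤ (e : ℝ) ^ (n + 1) := pow_le_pow_left₀ (by norm_num) he' _
    calc |y (n + 1) - e * y n| / (e : ℝ) ^ (n + 1) ≤ C / (2 : ℝ) ^ (n + 1) := by
          refine div_le_div₀ hC (h n) (by positivity) h2
      _ = (C / 2) * (1 / 2 : ℝ) ^ n := by
          rw [pow_succ, one_div, inv_pow]
          field_simp
  obtain ⟨G, hG⟩ := cauchySeq_tendsto_of_complete
    (cauchySeq_of_le_geometric (1 / 2 : ℝ) (C / 2) (by norm_num) hu)
  refine ⟨G, ?_, hG⟩
  have h3 := dist_le_of_le_geometric_of_tendsto₀ (1 / 2 : ℝ) (C / 2) (by norm_num) hu hG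
  rw [Real.dist_eq] at h3
  simp only [pow_zero, div_one] at h3
  have h4 : C / 2 / (1 - 1 / 2) = C := by ring
  rw [h4] at h3
  have := (abs_le.1 h3).2
  linarith

/-- logarithms of different primes are independent -/
lemma log_indep {ι : Type*} [Fintype ι] (q : ι → ℕ) (hq : ∀ i, (q i).Prime)
    (hinj : Function.Injective q) (k : ι → ℤ) (h : ∑ i, (k i : ℝ) * Real.log (q i) = 0) :
    ∀ i, k i = 0 := by
  classical
  have h1 : Real.log ((∏ i, q i ^ (k i).toNat : ℕ) : ℝ) =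
      Real.log ((∏ i, q i ^ (-k i).toNat : ℕ) : ℝ) := by
    have hne : ∀ i, (q i : ℝ) ≠ 0 := fun i => by exact_mod_cast (hq i).ne_zero
    rw [Nat.cast_prod, Nat.cast_prod, Real.log_prod (fun i _ => by
      rw [Nat.cast_pow]; exact pow_ne_zero _ (hne i)), Real.log_prod (fun i _ => by
      rw [Nat.cast_pow]; exact pow_ne_zero _ (hne i)), ← sub_eq_zero, ← Finset.sum_sub_distrib]
    rw [← h]
    refine Finset.sum_congr rfl fun i _ => ?_
    rw [Nat.cast_pow, Nat.cast_pow, Real.log_pow, Real.log_pow, ← sub_mul]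
    congr 1
    have h2 : ((k i).toNat : ℤ) - ((-k i).toNat : ℤ) = k i := by omega
    have h3 := congrArg (fun t : ℤ => (t : ℝ)) h2
    push_cast at h3
    exact h3
  have hpos : ∀ f : ι → ℕ, (0 : ℝ) < ((∏ i, q i ^ f i : ℕ) : ℝ) := by
    intro f
    have : 0 < ∏ i, q i ^ f i := Finset.prod_pos fun i _ => pow_pos (hq i).pos _
    exact_mod_cast this
  have h4 := Real.log_injOn_pos (Set.mem_Ioi.2 (hpos _)) (Set.mem_Ioi.2 (hpos _)) h1
  have h5 : ∏ i, q i ^ (k i).toNat = ∏ i, q i ^ (-k i).toNat := by exact_mod_cast h4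
  have hf : ∀ (f : ι → ℕ) (j : ι), (∏ i, q i ^ f i).factorization (q j) = f j := by
    intro f j
    rw [Nat.factorization_prod (fun i _ => pow_ne_zero _ (hq i).ne_zero)]
    rw [Finsupp.finsetSum_apply]
    rw [Finset.sum_eq_single j]
    · rw [(hq j).factorization_pow]
      simp
    · intro i _ hij
      rw [(hq i).factorization_pow, Finsupp.single_apply, if_neg]
      intro h6
      exact hij (hinj h6)
    · simp
  intro i
  have h7 := hf (fun i => (k i).toNat) i
  rw [h5, hf] at h7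
  omega

end Pool.Agent.X261.ZD

namespace Pool.Agent.X261.ZD

open Polynomial Filter Topology

section
variable {K : Type*} [Field K] (σ : K →+* ℂ)

lemma sig_eval (P : K[X]) (x : K) : σ (P.eval x) = (P.map σ).eval (σ x) := by
  rw [eval_map, eval₂_hom]

lemma poly_log' (P : K[X]) (hP : P ≠ 0) : ∃ C R : ℝ, 1 ≤ R ∧ 0 ≤ C ∧ ∀ x : K, R ≤ ‖σ x‖ →
    P.eval x ≠ 0 ∧ |Real.log ‖σ (P.eval x)‖ - P.natDegree * Real.log ‖σ x‖| ≤ C := by
  have hP' : P.map σ ≠ 0 := (Polynomial.map_ne_zero_iff σ.injective).2 hP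
  obtain ⟨C, R, hR, hC, h⟩ := poly_log (P.map σ) hP'
  refine ⟨C, R, hR, hC, fun x hx => ?_⟩
  obtain ⟨h1, h2⟩ := h (σ x) hx
  rw [natDegree_map] at h2
  rw [← sig_eval] at h1 h2
  exact ⟨fun h0 => h1 (by rw [h0, map_zero]), h2⟩

/-- a rational map with a superattracting fixed point at infinity -/
lemma rat_log (P Q : K[X]) (hQ : Q ≠ 0) (e : ℕ) (he : Q.natDegree + e = P.natDegree)
    (he2 : 2 ≤ e) : ∃ C R : ℝ, 1 ≤ R ∧ 0 ≤ C ∧ ∀ x : K, R ≤ ‖σ x‖ → Q.eval x ≠ 0 ∧
      |Real.log ‖σ (P.eval x / Q.eval x)‖ - e * Real.log ‖σ x‖| ≤ C := by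
  have hP : P ≠ 0 := by
    rintro rfl
    rw [natDegree_zero] at he
    omega
  obtain ⟨C1, R1, hR1, hC1, h1⟩ := poly_log' σ P hP
  obtain ⟨C2, R2, hR2, hC2, h2⟩ := poly_log' σ Q hQ
  refine ⟨C1 + C2, max R1 R2, hR1.trans (le_max_left _ _), add_nonneg hC1 hC2, fun x hx => ?_⟩
  obtain ⟨a1, a2⟩ := h1 x ((le_max_left _ _).trans hx)
  obtain ⟨b1, b2⟩ := h2 x ((le_max_right _ _).trans hx)
  refine ⟨b1, ?_⟩
  have p1 : ‖σ (P.eval x)‖ ≠ 0 := norm_ne_zero_iff.2 ((map_ne_zero σ).2 a1)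
  have q1 : ‖σ (Q.eval x)‖ ≠ 0 := norm_ne_zero_iff.2 ((map_ne_zero σ).2 b1)
  rw [map_div₀, norm_div, Real.log_div p1 q1]
  have he' : (P.natDegree : ℝ) = Q.natDegree + e := by exact_mod_cast he.symm
  rw [he'] at a2
  have t1 := abs_le.1 a2
  have t2 := abs_le.1 b2
  rw [abs_le]
  constructor <;> nlinarith [t1.1, t1.2, t2.1, t2.2]

lemma sig_nat (M : ℕ) : ‖σ (M : K)‖ = M := by
  rw [map_natCast, Complex.norm_natCast]

/-- **A**: escaping orbits of any map with a superattracting fixed point at infinity -/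
lemma esc_any (P Q : K[X]) (hQ : Q ≠ 0) (e : ℕ) (he : Q.natDegree + e = P.natDegree)
    (he2 : 2 ≤ e) : ∃ (α : K) (G : ℝ), 0 < G ∧
      (∀ n, Q.eval ((fun x => P.eval x / Q.eval x)^[n] α) ≠ 0) ∧
      (∀ n, (fun x => P.eval x / Q.eval x)^[n] α ≠ 0) ∧
      Tendsto (fun n => Real.log ‖σ ((fun x => P.eval x / Q.eval x)^[n] α)‖ / (e : ℝ) ^ n)
        atTop (𝓝 G) := by
  obtain ⟨C, R, hR, hC, h⟩ := rat_log σ P Q hQ e he he2
  obtain ⟨M, hM⟩ := exists_nat_gt (Real.exp (C + 1 + Real.log R))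
  have he' : (2 : ℝ) ≤ e := by exact_mod_cast he2
  have hlR : 0 ≤ Real.log R := Real.log_nonneg hR
  have hM0 : (0 : ℝ) < M := lt_trans (Real.exp_pos _) hM
  have hlM : C + 1 + Real.log R < Real.log M := (Real.lt_log_iff_exp_lt hM0).2 hM
  set f : K → K := fun x => P.eval x / Q.eval x with hf
  have key : ∀ n, R ≤ ‖σ (f^[n] (M : K))‖ ∧ C + 1 + Real.log R < Real.log ‖σ (f^[n] (M : K))‖ := by
    intro n
    induction n with
    | zero =>
      rw [Function.iterate_zero, id, sig_nat]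
      refine ⟨?_, hlM⟩
      rw [← Real.log_le_log_iff (by linarith) hM0]
      linarith
    | succ n ih =>
      obtain ⟨i1, i2⟩ := ih
      obtain ⟨j1, j2⟩ := h _ i1
      rw [Function.iterate_succ_apply']
      have j3 := (abs_le.1 j2).1
      have j4 : C + 1 + Real.log R < Real.log ‖σ (f (f^[n] (M : K)))‖ := by
        show C + 1 + Real.log R < Real.log ‖σ (P.eval (f^[n] (M : K)) / Q.eval (f^[n] (M : K)))‖
        nlinarith
      refine ⟨?_, j4⟩
      have j5 : 0 < ‖σ (f (f^[n] (M : K)))‖ := by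
        rcases (norm_nonneg (σ (f (f^[n] (M : K))))).lt_or_eq with j | j
        · exact j
        · rw [← j, Real.log_zero] at j4
          linarith
      rw [← Real.log_le_log_iff (by linarith) j5]
      linarith
  obtain ⟨G, hG, hG'⟩ := rate he2 hC (fun n => Real.log ‖σ (f^[n] (M : K))‖) (fun n => by
    show |Real.log ‖σ (f^[n + 1] (M : K))‖ - e * Real.log ‖σ (f^[n] (M : K))‖| ≤ C
    rw [Function.iterate_succ_apply']
    exact (h _ (key n).1).2) (by
    have := (key 0).2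
    show C < Real.log ‖σ (f^[0] (M : K))‖
    linarith)
  refine ⟨M, G, hG, fun n => (h _ (key n).1).1, fun n h0 => ?_, hG'⟩
  have := (key n).1
  rw [h0, map_zero, norm_zero] at this
  linarith

/-- affinely conjugate to `z ^ e` or to the Chebyshev polynomial `T_e (z + 1 / z) = z ^ e + 1 / z ^ e` -/
def Exc (g : K → K) (e : ℕ) : Prop := ∃ a b : K, a ≠ 0 ∧
  ((∀ z : K, g (a * z + b) = a * z ^ e + b) ∨
    ∀ z : K, z ≠ 0 → g (a * (z + z⁻¹) + b) = a * (z ^ e + (z⁻¹) ^ e) + b)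

lemma exc_orbit [CharZero K] (g : K → K) (e : ℕ) (a b : K)
    (h : (∀ z : K, g (a * z + b) = a * z ^ e + b) ∨
      ∀ z : K, z ≠ 0 → g (a * (z + z⁻¹) + b) = a * (z ^ e + (z⁻¹) ^ e) + b) (p : ℕ) (hp : 1 ≤ p) :
    ∃ y : ℕ → K, (∀ n, g^[n] (a * y 0 + b) = a * y n + b) ∧
      ∀ n, (p : ℝ) ^ e ^ n ≤ ‖σ (y n)‖ ∧ ‖σ (y n)‖ ≤ 2 * (p : ℝ) ^ e ^ n := by
  have hp0 : (p : K) ≠ 0 := by exact_mod_cast (show p ≠ 0 by omega)
  have hp1 : (1 : ℝ) ≤ p := by exact_mod_cast hp
  rcases h with h | h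
  · refine ⟨fun n => (p : K) ^ e ^ n, fun n => ?_, fun n => ?_⟩
    · induction n with
      | zero => simp
      | succ n ih =>
        rw [Function.iterate_succ_apply', ih, h, ← pow_mul, ← pow_succ]
    · have : ‖σ ((p : K) ^ e ^ n)‖ = (p : ℝ) ^ e ^ n := by
        rw [map_pow, norm_pow, sig_nat]
      rw [this]
      have h1 : (0 : ℝ) < (p : ℝ) ^ e ^ n := by positivity
      exact ⟨le_rfl, by linarith⟩
  · refine ⟨fun n => (p : K) ^ e ^ n + ((p : K) ^ e ^ n)⁻¹, fun n => ?_, fun n => ?_⟩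
    · induction n with
      | zero => simp
      | succ n ih =>
        rw [Function.iterate_succ_apply', ih, h _ (pow_ne_zero _ hp0)]
        show a * (((p : K) ^ e ^ n) ^ e + (((p : K) ^ e ^ n)⁻¹) ^ e) + b =
          a * ((p : K) ^ e ^ (n + 1) + ((p : K) ^ e ^ (n + 1))⁻¹) + b
        rw [inv_pow, ← pow_mul, ← pow_succ]
    · have h1 : (1 : ℝ) ≤ (p : ℝ) ^ e ^ n := one_le_pow₀ hp1
      have h2 : σ ((p : K) ^ e ^ n + ((p : K) ^ e ^ n)⁻¹) =
          (((p : ℝ) ^ e ^ n + ((p : ℝ) ^ e ^ n)⁻¹ : ℝ) : ℂ) := by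
        rw [map_add, map_inv₀, map_pow, map_natCast]
        push_cast
        rfl
      have h3 : (0 : ℝ) ≤ ((p : ℝ) ^ e ^ n)⁻¹ := by positivity
      have h4 : ((p : ℝ) ^ e ^ n)⁻¹ ≤ 1 := inv_le_one_of_one_le₀ h1
      rw [h2, Complex.norm_real, Real.norm_of_nonneg (by linarith)]
      constructor <;> linarith

/-- **B**: orbits of exceptional maps -/
lemma esc_exc [CharZero K] (P Q : K[X]) (hQ : Q ≠ 0) (e : ℕ) (he2 : 2 ≤ e)
    (hex : Exc (fun x => P.eval x / Q.eval x) e) : ∃ p0 : ℕ, ∀ p : ℕ, p0 ≤ p → 2 ≤ p →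
      ∃ α : K,
      (∀ n, Q.eval ((fun x => P.eval x / Q.eval x)^[n] α) ≠ 0) ∧
      (∀ n, (fun x => P.eval x / Q.eval x)^[n] α ≠ 0) ∧
      Tendsto (fun n => Real.log ‖σ ((fun x => P.eval x / Q.eval x)^[n] α)‖ / (e : ℝ) ^ n)
        atTop (𝓝 (Real.log p)) := by
  obtain ⟨a, b, ha, h⟩ := hex
  obtain ⟨C1, R1, hR1, hC1, h1⟩ := poly_log' σ (C a * X + C b : K[X]) (by
    intro h0
    have := congrArg (fun t => t.coeff 1) h0
    simp [coeff_C] at this
    exact ha this)
  obtain ⟨C2, R2, hR2, hC2, h2⟩ := poly_log' σ Q hQ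
  have hdeg : (C a * X + C b : K[X]).natDegree = 1 := natDegree_linear ha
  rw [hdeg] at h1
  obtain ⟨p0, hp0⟩ := exists_nat_gt (R1 + (R2 + ‖σ b‖) / ‖σ a‖)
  have hsa : 0 < ‖σ a‖ := norm_pos_iff.2 ((map_ne_zero σ).2 ha)
  refine ⟨p0, fun p hp hp2 => ?_⟩
  obtain ⟨y, hy1, hy2⟩ := exc_orbit σ (fun x => P.eval x / Q.eval x) e a b h p
    (by omega)
  have hp1 : (2 : ℝ) ≤ p := by exact_mod_cast hp2
  have hpp : R1 + (R2 + ‖σ b‖) / ‖σ a‖ < p := lt_of_lt_of_le hp0 (by exact_mod_cast hp)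
  have hpe : ∀ n, (p : ℝ) ≤ (p : ℝ) ^ e ^ n := fun n =>
    le_self_pow₀ (by linarith) (pow_ne_zero _ (by omega))
  have hR2' : 0 ≤ (R2 + ‖σ b‖) / ‖σ a‖ := by positivity
  have hy3 : ∀ n, R1 ≤ ‖σ (y n)‖ := fun n => by
    have := hpe n
    have := (hy2 n).1
    linarith
  have hev : ∀ n, (C a * X + C b : K[X]).eval (y n) = a * y n + b := by
    intro n
    simp
  refine ⟨a * y 0 + b, fun n => ?_, fun n => ?_, ?_⟩
  · rw [hy1]
    refine (h2 _ ?_).1
    have t1 : ‖σ a‖ * ‖σ (y n)‖ ≤ ‖σ (a * y n + b)‖ + ‖σ b‖ := by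
      have : σ a * σ (y n) = σ (a * y n + b) - σ b := by
        rw [map_add, map_mul]
        ring
      rw [← norm_mul, this]
      exact norm_sub_le _ _
    have t2 : (R2 + ‖σ b‖) / ‖σ a‖ ≤ ‖σ (y n)‖ := by
      have := hpe n
      have := (hy2 n).1
      linarith
    rw [div_le_iff₀ hsa] at t2
    linarith
  · rw [hy1, ← hev]
    exact (h1 _ (hy3 n)).1
  · simp only [hy1]
    have hb : ∀ n, |Real.log ‖σ (a * y n + b)‖ - (e : ℝ) ^ n * Real.log p| ≤
        C1 + Real.log 2 := by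
      intro n
      have u1 := (h1 _ (hy3 n)).2
      rw [hev, Nat.cast_one, one_mul] at u1
      have hq : (0 : ℝ) < (p : ℝ) ^ e ^ n := by positivity
      have u2 := Real.log_le_log hq (hy2 n).1
      have u3 := Real.log_le_log (lt_of_lt_of_le hq (hy2 n).1) (hy2 n).2
      rw [Real.log_mul (by norm_num) hq.ne'] at u3
      rw [Real.log_pow, Nat.cast_pow] at u2 u3
      have u4 := abs_le.1 u1
      have u5 : 0 < Real.log 2 := Real.log_pos (by norm_num)
      rw [abs_le]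
      constructor <;> linarith [u4.1, u4.2]
    have he' : (2 : ℝ) ≤ e := by exact_mod_cast he2
    have he0 : ∀ n : ℕ, (0 : ℝ) < (e : ℝ) ^ n := fun n => by positivity
    have h6 : Tendsto (fun n : ℕ => (C1 + Real.log 2) / (e : ℝ) ^ n) atTop (𝓝 0) :=
      (tendsto_const_nhds).div_atTop (tendsto_pow_atTop_atTop_of_one_lt (by linarith))
    rw [tendsto_iff_dist_tendsto_zero]
    refine squeeze_zero (fun _ => dist_nonneg) (fun n => ?_) h6
    rw [Real.dist_eq]
    have e1 : Real.log ‖σ (a * y n + b)‖ / (e : ℝ) ^ n - Real.log p =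
        (Real.log ‖σ (a * y n + b)‖ - (e : ℝ) ^ n * Real.log p) / (e : ℝ) ^ n := by
      rw [sub_div, mul_div_cancel_left₀ _ (he0 n).ne']
    rw [e1, abs_div, abs_of_pos (he0 n)]
    exact div_le_div_of_nonneg_right (hb n) (he0 n).le

end

end Pool.Agent.X261.ZD

namespace Pool.Agent.X261.ZD

open Filter Topology

/-- sequences with independent growth rates are not on a hypersurface -/
lemma dominance {K : Type*} [Field K] (σ : K →+* ℂ) {N : ℕ} (e : Fin N → ℕ) (he : ∀ i, 2 ≤ e i)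
    (G : Fin N → ℝ) (x : ℕ → Fin N → K) (hx0 : ∀ n i, x n i ≠ 0)
    (hx : ∀ i, Tendsto (fun n => Real.log ‖σ (x n i)‖ / (e i : ℝ) ^ n) atTop (𝓝 (G i)))
    (hind : ∀ (k : Fin N → ℤ) (D : ℕ), (∃ i, e i = D ∧ k i ≠ 0) →
      ∑ i, (if e i = D then (k i : ℝ) * G i else 0) ≠ 0)
    (F : MvPolynomial (Fin N) K) (hF : F ≠ 0) : ∃ n, MvPolynomial.eval (x n) F ≠ 0 := by
  classical
  -- the logarithm of the terms
  obtain ⟨T, hT⟩ : ∃ T : (Fin N →₀ ℕ) → ℕ → ℝ, T = fun m n =>
    Real.log ‖σ (F.coeff m)‖ + ∑ i, (m i : ℝ) * Real.log ‖σ (x n i)‖ := ⟨_, rfl⟩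
  have hterm : ∀ m ∈ F.support, ∀ n, ‖σ (F.coeff m * ∏ i, x n i ^ m i)‖ = Real.exp (T m n) := by
    intro m hm n
    have h1 : F.coeff m ≠ 0 := MvPolynomial.mem_support_iff.1 hm
    have h2 : ‖σ (F.coeff m)‖ ≠ 0 := norm_ne_zero_iff.2 ((map_ne_zero σ).2 h1)
    have h3 : ∀ i, ‖σ (x n i)‖ ≠ 0 := fun i => norm_ne_zero_iff.2 ((map_ne_zero σ).2 (hx0 n i))
    have h4 : 0 < ‖σ (F.coeff m * ∏ i, x n i ^ m i)‖ := by
      rw [norm_pos_iff, map_ne_zero]
      exact mul_ne_zero h1 (Finset.prod_ne_zero_iff.2 fun i _ => pow_ne_zero _ (hx0 n i))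
    rw [hT, ← Real.exp_log h4]
    congr 1
    rw [map_mul, norm_mul, Real.log_mul h2 (by
      rw [norm_ne_zero_iff, map_ne_zero]
      exact Finset.prod_ne_zero_iff.2 fun i _ => pow_ne_zero _ (hx0 n i))]
    congr 1
    rw [map_prod, norm_prod, Real.log_prod (fun i _ => by
      rw [map_pow, norm_pow]; exact pow_ne_zero _ (h3 i))]
    refine Finset.sum_congr rfl fun i _ => ?_
    rw [map_pow, norm_pow, Real.log_pow]
  -- two different terms have very different size
  have hsep : ∀ m m' : Fin N →₀ ℕ, m ≠ m' → Tendsto (fun n => |T m n - T m' n|) atTop atTop := by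
    intro m m' hmm
    obtain ⟨k, hk⟩ : ∃ k : Fin N → ℤ, k = fun i => (m i : ℤ) - m' i := ⟨_, rfl⟩
    have hex : (Finset.univ.filter fun i => k i ≠ 0).Nonempty := by
      by_contra h
      rw [Finset.not_nonempty_iff_eq_empty, Finset.filter_eq_empty_iff] at h
      apply hmm
      ext i
      have := h (Finset.mem_univ i)
      rw [hk] at this
      simp only [ne_eq, not_not] at this
      omega
    obtain ⟨i0, hi0, hmax⟩ := Finset.exists_max_image _ e hex
    have hi0' : k i0 ≠ 0 := (Finset.mem_filter.1 hi0).2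
    obtain ⟨D, hD⟩ : ∃ D, D = e i0 := ⟨_, rfl⟩
    have hD2 : (2 : ℝ) ≤ D := by
      rw [hD]
      exact_mod_cast he i0
    have hS := hind k D ⟨i0, hD.symm, hi0'⟩
    have hlim : Tendsto (fun n => (T m n - T m' n) / (D : ℝ) ^ n) atTop
        (𝓝 (0 + ∑ i, (if e i = D then (k i : ℝ) * G i else 0))) := by
      have e1 : (fun n => (T m n - T m' n) / (D : ℝ) ^ n) = fun n =>
          (Real.log ‖σ (F.coeff m)‖ - Real.log ‖σ (F.coeff m')‖) / (D : ℝ) ^ n +
          ∑ i, (k i : ℝ) * (Real.log ‖σ (x n i)‖ / (e i : ℝ) ^ n * ((e i : ℝ) / D) ^ n) := by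
        funext n
        rw [hT]
        have hDn : (D : ℝ) ^ n ≠ 0 := by positivity
        have e2 : ∀ i, (k i : ℝ) * (Real.log ‖σ (x n i)‖ / (e i : ℝ) ^ n * ((e i : ℝ) / D) ^ n) =
            ((m i : ℝ) * Real.log ‖σ (x n i)‖ - (m' i : ℝ) * Real.log ‖σ (x n i)‖) /
              (D : ℝ) ^ n := by
          intro i
          have hei : (e i : ℝ) ^ n ≠ 0 := by
            have : (e i : ℝ) ≠ 0 := by
              have := he i
              positivity
            exact pow_ne_zero _ this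
          rw [hk, div_pow]
          push_cast
          field_simp
        rw [Finset.sum_congr rfl fun i _ => e2 i, ← Finset.sum_div, Finset.sum_sub_distrib]
        field_simp
        ring
      rw [e1]
      refine Tendsto.add ((tendsto_const_nhds).div_atTop
        (tendsto_pow_atTop_atTop_of_one_lt (by linarith))) ?_
      refine tendsto_finsetSum _ fun i _ => ?_
      by_cases hki : k i = 0
      · simp [hki]
      · have hle : e i ≤ D := by
          rw [hD]
          exact hmax i (Finset.mem_filter.2 ⟨Finset.mem_univ _, hki⟩)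
        by_cases heD : e i = D
        · rw [if_pos heD]
          have hD0 : (D : ℝ) ≠ 0 := by linarith
          simp only [heD, div_self hD0, one_pow, mul_one]
          have := hx i
          rw [heD] at this
          exact this.const_mul _
        · rw [if_neg heD]
          have hlt : (e i : ℝ) / D < 1 := by
            rw [div_lt_one (by linarith)]
            exact_mod_cast lt_of_le_of_ne hle heD
          have h7 := tendsto_pow_atTop_nhds_zero_of_lt_one
            (div_nonneg (Nat.cast_nonneg (e i)) (by linarith : (0 : ℝ) ≤ D)) hlt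
          have h8 := ((hx i).mul h7).const_mul (k i : ℝ)
          rwa [mul_zero, mul_zero] at h8
    rw [zero_add] at hlim
    have h9 := hlim.abs
    have h10 : Tendsto (fun n => (D : ℝ) ^ n * |(T m n - T m' n) / (D : ℝ) ^ n|) atTop atTop :=
      (tendsto_pow_atTop_atTop_of_one_lt (by linarith)).atTop_mul_pos (abs_pos.2 hS) h9
    refine h10.congr fun n => ?_
    have hDn : (0 : ℝ) < (D : ℝ) ^ n := by positivity
    rw [abs_div, abs_of_pos hDn, mul_div_cancel₀ _ hDn.ne']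
  -- choose `n`
  have hev : ∀ᶠ n in atTop, ∀ m ∈ F.support, ∀ m' ∈ F.support, m ≠ m' →
      Real.log (F.support.card) + 1 ≤ |T m n - T m' n| := by
    rw [eventually_all_finset]
    intro m _
    rw [eventually_all_finset]
    intro m' _
    by_cases hmm : m = m'
    · exact Eventually.of_forall fun n h => absurd hmm h
    · filter_upwards [(hsep m m' hmm).eventually_ge_atTop (Real.log (F.support.card) + 1)]
        with n hn _ using hn
  obtain ⟨n, hn⟩ := hev.exists
  refine ⟨n, fun h0 => ?_⟩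
  have hne : F.support.Nonempty := MvPolynomial.support_nonempty.2 hF
  obtain ⟨m0, hm0, hmax⟩ := Finset.exists_max_image F.support (fun m => T m n) hne
  rw [MvPolynomial.eval_eq'] at h0
  have hc0 : (0 : ℝ) < F.support.card := by exact_mod_cast hne.card_pos
  rw [← Finset.add_sum_erase _ _ hm0] at h0
  have h1 : ‖σ (F.coeff m0 * ∏ i, x n i ^ m0 i)‖ ≤
      ∑ m ∈ F.support.erase m0, ‖σ (F.coeff m * ∏ i, x n i ^ m i)‖ := by
    have h2 : σ (F.coeff m0 * ∏ i, x n i ^ m0 i) =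
        - ∑ m ∈ F.support.erase m0, σ (F.coeff m * ∏ i, x n i ^ m i) := by
      rw [← map_sum, ← map_neg]
      congr 1
      exact eq_neg_of_add_eq_zero_left h0
    rw [h2, norm_neg]
    exact norm_sum_le _ _
  rw [hterm m0 hm0] at h1
  have h3 : ∑ m ∈ F.support.erase m0, ‖σ (F.coeff m * ∏ i, x n i ^ m i)‖ ≤
      ∑ m ∈ F.support.erase m0, Real.exp (T m0 n) * (Real.exp (-1) / F.support.card) := by
    refine Finset.sum_le_sum fun m hm => ?_
    obtain ⟨hm1, hm2⟩ := Finset.mem_erase.1 hm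
    rw [hterm m hm2]
    have h4 := hn m0 hm0 m hm2 hm1.symm
    rw [abs_of_nonneg (sub_nonneg.2 (hmax m hm2))] at h4
    have h5 : Real.exp (T m0 n) * (Real.exp (-1) / F.support.card) =
        Real.exp (T m0 n + (-1 - Real.log F.support.card)) := by
      rw [Real.exp_add, Real.exp_sub, Real.exp_log hc0]
    rw [h5]
    exact Real.exp_le_exp.2 (by linarith)
  rw [Finset.sum_const, nsmul_eq_mul] at h3
  have h6 : ((F.support.erase m0).card : ℝ) ≤ F.support.card := by
    exact_mod_cast Finset.card_le_card (Finset.erase_subset _ _)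
  have h7 : ((F.support.erase m0).card : ℝ) *
      (Real.exp (T m0 n) * (Real.exp (-1) / F.support.card)) ≤
      Real.exp (T m0 n) * Real.exp (-1) := by
    calc ((F.support.erase m0).card : ℝ) *
        (Real.exp (T m0 n) * (Real.exp (-1) / F.support.card)) ≤
        (F.support.card : ℝ) * (Real.exp (T m0 n) * (Real.exp (-1) / F.support.card)) :=
          mul_le_mul_of_nonneg_right h6 (by positivity)
      _ = Real.exp (T m0 n) * Real.exp (-1) := by
          field_simp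
  have h8 : Real.exp (-1 : ℝ) < 1 := by
    rw [Real.exp_lt_one_iff]
    norm_num
  have h9 : Real.exp (T m0 n) * Real.exp (-1) < Real.exp (T m0 n) := by
    have := Real.exp_pos (T m0 n)
    nlinarith
  linarith

end Pool.Agent.X261.ZD

namespace Pool.Agent.X261.ZD

open Polynomial Filter Topology

/-- block `b` of primes -/
noncomputable def qq (N M b : ℕ) (i : Fin N) : ℕ := Nat.nth Nat.Prime (M + b * N + i.1)

lemma qq_prime (N M b : ℕ) (i : Fin N) : (qq N M b i).Prime := Nat.prime_nth_prime _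

lemma qq_ge (N M b : ℕ) (i : Fin N) : M ≤ qq N M b i := by
  have h1 : M + b * N + i.1 ≤ Nat.nth Nat.Prime (M + b * N + i.1) :=
    (Nat.nth_strictMono Nat.infinite_setOfPred_prime).le_apply
  unfold qq
  omega

lemma qq_inj (N M b b' : ℕ) (i i' : Fin N) (h : qq N M b i = qq N M b' i') : b = b' ∧ i = i' := by
  have h1 := Nat.nth_injective Nat.infinite_setOfPred_prime h
  have h2 : b * N + i.1 = b' * N + i'.1 := by omega
  have hi := i.2
  have hi' := i'.2
  have h3 : b = b' := by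
    rcases lt_trichotomy b b' with h | h | h
    · exfalso
      have : (b + 1) * N ≤ b' * N := Nat.mul_le_mul_right _ h
      rw [Nat.add_mul] at this
      omega
    · exact h
    · exfalso
      have : (b' + 1) * N ≤ b * N := Nat.mul_le_mul_right _ h
      rw [Nat.add_mul] at this
      omega
  subst h3
  exact ⟨rfl, Fin.ext (by omega)⟩

/-- a good block -/
lemma good_block (N M : ℕ) (c : Fin N → ℝ) (hc : ∀ j, 0 < c j) : ∃ b : ℕ, ∀ j,
    ¬ ∃ (k0 : ℤ) (k : Fin N → ℤ), k0 ≠ 0 ∧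
      (k0 : ℝ) * c j = ∑ i, (k i : ℝ) * Real.log (qq N M b i) := by
  classical
  have huniq : ∀ (j : Fin N) (b b' : ℕ),
      (∃ (k0 : ℤ) (k : Fin N → ℤ), k0 ≠ 0 ∧
        (k0 : ℝ) * c j = ∑ i, (k i : ℝ) * Real.log (qq N M b i)) →
      (∃ (k0 : ℤ) (k : Fin N → ℤ), k0 ≠ 0 ∧
        (k0 : ℝ) * c j = ∑ i, (k i : ℝ) * Real.log (qq N M b' i)) → b = b' := by
    rintro j b b' ⟨k0, k, hk0, hk⟩ ⟨l0, l, hl0, hl⟩
    by_contra hne
    have h1 : ∀ s : Fin N ⊕ Fin N, (Sum.elim (fun i => l0 * k i) (fun i => -(k0 * l i)) :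
        Fin N ⊕ Fin N → ℤ) s = 0 := by
      refine log_indep (Sum.elim (fun i => qq N M b i) (fun i => qq N M b' i)) ?_ ?_ _ ?_
      · rintro (i | i) <;> exact qq_prime _ _ _ _
      · rintro (i | i) (i' | i') h
        · rw [(qq_inj N M b b i i' h).2]
        · exact absurd (qq_inj N M b b' i i' h).1 hne
        · exact absurd (qq_inj N M b' b i i' h).1.symm hne
        · rw [(qq_inj N M b' b' i i' h).2]
      · rw [Fintype.sum_sum_type]
        simp only [Sum.elim_inl, Sum.elim_inr]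
        push_cast
        simp only [neg_mul, Finset.sum_neg_distrib, mul_assoc, ← Finset.mul_sum]
        rw [← hk, ← hl]
        ring
    have h2 : ∀ i, k i = 0 := by
      intro i
      have := h1 (Sum.inl i)
      simp only [Sum.elim_inl] at this
      exact (mul_eq_zero.1 this).resolve_left hl0
    have h3 : (k0 : ℝ) * c j = 0 := by
      rw [hk]
      simp [h2]
    have h4 : (k0 : ℝ) ≠ 0 := by exact_mod_cast hk0
    exact (hc j).ne' ((mul_eq_zero.1 h3).resolve_left h4)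
  by_contra hcon
  push Not at hcon
  choose j hj using hcon
  have hinj : Function.Injective (fun b : Fin (N + 1) => j b.1) := by
    intro b b' h
    have h1 := hj b.1
    have h2 := hj b'.1
    have h3 : j b.1 = j b'.1 := h
    rw [← h3] at h2
    exact Fin.ext (huniq _ _ _ h1 h2)
  have := Fintype.card_le_of_injective _ hinj
  simp at this

theorem main_ZD {K : Type*} [Field K] [CharZero K] (σ : K →+* ℂ) (N : ℕ) (e : Fin N → ℕ)
    (P Q : Fin N → K[X]) (he : ∀ i, 2 ≤ e i) (hQ : ∀ i, Q i ≠ 0)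
    (hdeg : ∀ i, (Q i).natDegree + e i = (P i).natDegree)
    (hexc : ∀ i j, i ≠ j → e i = e j →
      Exc (fun x => (P i).eval x / (Q i).eval x) (e i) ∨
      Exc (fun x => (P j).eval x / (Q j).eval x) (e j)) :
    ∃ α : Fin N → K,
      (∀ i n, (Q i).eval ((fun x => (P i).eval x / (Q i).eval x)^[n] (α i)) ≠ 0) ∧
      ∀ F : MvPolynomial (Fin N) K,
        (∀ n : ℕ, MvPolynomial.eval
          (fun i => (fun x => (P i).eval x / (Q i).eval x)^[n] (α i)) F = 0) → F = 0 := by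
  classical
  choose αA GA hGA hA1 hA2 hA3 using fun i => esc_any σ (P i) (Q i) (hQ i) (e i) (hdeg i) (he i)
  have hB : ∀ i, ∃ p0 : ℕ, Exc (fun x => (P i).eval x / (Q i).eval x) (e i) →
      ∀ p : ℕ, p0 ≤ p → 2 ≤ p → ∃ α : K,
      (∀ n, (Q i).eval ((fun x => (P i).eval x / (Q i).eval x)^[n] α) ≠ 0) ∧
      (∀ n, (fun x => (P i).eval x / (Q i).eval x)^[n] α ≠ 0) ∧
      Tendsto (fun n => Real.log ‖σ ((fun x => (P i).eval x / (Q i).eval x)^[n] α)‖ /
        (e i : ℝ) ^ n) atTop (𝓝 (Real.log p)) := by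
    intro i
    by_cases h : Exc (fun x => (P i).eval x / (Q i).eval x) (e i)
    · obtain ⟨p0, hp0⟩ := esc_exc σ (P i) (Q i) (hQ i) (e i) (he i) h
      exact ⟨p0, fun _ => hp0⟩
    · exact ⟨0, fun h' => absurd h' h⟩
  choose p0 hp0 using hB
  obtain ⟨b, hb⟩ := good_block N (∑ i, p0 i) GA hGA
  have hM : ∀ i, p0 i ≤ qq N (∑ i, p0 i) b i := fun i =>
    (Finset.single_le_sum (fun _ _ => Nat.zero_le _) (Finset.mem_univ i)).trans (qq_ge _ _ _ _)
  obtain ⟨G, hG⟩ : ∃ G : Fin N → ℝ, G = fun i =>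
    if Exc (fun x => (P i).eval x / (Q i).eval x) (e i) then
      Real.log (qq N (∑ i, p0 i) b i) else GA i := ⟨_, rfl⟩
  have hall : ∀ i, ∃ α : K,
      (∀ n, (Q i).eval ((fun x => (P i).eval x / (Q i).eval x)^[n] α) ≠ 0) ∧
      (∀ n, (fun x => (P i).eval x / (Q i).eval x)^[n] α ≠ 0) ∧
      Tendsto (fun n => Real.log ‖σ ((fun x => (P i).eval x / (Q i).eval x)^[n] α)‖ /
        (e i : ℝ) ^ n) atTop (𝓝 (G i)) := by
    intro i
    by_cases h : Exc (fun x => (P i).eval x / (Q i).eval x) (e i)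
    · obtain ⟨α, h1, h2, h3⟩ := hp0 i h _ (hM i) (qq_prime _ _ _ _).two_le
      refine ⟨α, h1, h2, ?_⟩
      rw [hG]
      simp only [if_pos h]
      exact h3
    · refine ⟨αA i, hA1 i, hA2 i, ?_⟩
      rw [hG]
      simp only [if_neg h]
      exact hA3 i
  choose α h1 h2 h3 using hall
  refine ⟨α, h1, fun F hF => ?_⟩
  by_contra hF0
  obtain ⟨n, hn⟩ := dominance σ e he G
    (fun n i => (fun x => (P i).eval x / (Q i).eval x)^[n] (α i)) (fun n i => h2 i n) h3 (by
    rintro k D ⟨i0, hi0, hki0⟩ hsum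
    by_cases hj : ∃ j, e j = D ∧ k j ≠ 0 ∧ ¬ Exc (fun x => (P j).eval x / (Q j).eval x) (e j)
    · obtain ⟨j, hj1, hj2, hj3⟩ := hj
      apply hb j
      refine ⟨k j, fun i => if e i = D ∧ i ≠ j then - k i else 0, hj2, ?_⟩
      rw [← Finset.add_sum_erase _ _ (Finset.mem_univ j), if_pos hj1] at hsum
      have hGj : G j = GA j := by
        rw [hG]
        simp only [if_neg hj3]
      rw [hGj] at hsum
      rw [eq_neg_of_add_eq_zero_left hsum, ← Finset.sum_neg_distrib,
        ← Finset.add_sum_erase Finset.univ _ (Finset.mem_univ j)]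
      simp only [ne_eq, not_true_eq_false, and_false, if_false, Int.cast_zero, zero_mul, zero_add]
      refine Finset.sum_congr rfl fun i hi => ?_
      have hij : i ≠ j := Finset.ne_of_mem_erase hi
      by_cases hiD : e i = D
      · have hei : Exc (fun x => (P i).eval x / (Q i).eval x) (e i) :=
          (hexc i j hij (hiD.trans hj1.symm)).resolve_right hj3
        rw [if_pos hiD, if_pos ⟨hiD, hij⟩, hG]
        simp only [if_pos hei]
        push_cast
        ring
      · rw [if_neg hiD, if_neg (fun h => hiD h.1)]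
        simp
    · push Not at hj
      have h4 := log_indep (fun i => qq N (∑ i, p0 i) b i) (fun i => qq_prime _ _ _ _)
        (fun i i' h => (qq_inj _ _ _ _ _ _ h).2) (fun i => if e i = D then k i else 0) (by
        rw [← hsum]
        refine Finset.sum_congr rfl fun i _ => ?_
        by_cases hiD : e i = D
        · rw [if_pos hiD, if_pos hiD]
          by_cases hki : k i = 0
          · simp [hki]
          · rw [hG]
            simp only [if_pos (hj i hiD hki)]
        · rw [if_neg hiD, if_neg hiD]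
          simp) i0
      simp only [if_pos hi0] at h4
      exact hki0 h4) F hF0
  exact hn (hF n)

end Pool.Agent.X261.ZD
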